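import Mathlib

/-!
The ordering lemma for strong edge colourings of bipartite graphs.

If every vertex `b` of a set `B'` owns the neighbour `σ b` which is strictly first among the
neighbours of `b` for some labelling `ℓ`, then the edges `σ b - b` can be split greedily into
`d` induced matchings, where `d` bounds the number of members of `B'` adjacent to any vertex.
-/

set_option autoImplicit false

namespace Pool.Agent.MP_61eeb2_co

open Finset Classical

theorem phase_colouring {V : Type*} (G : SimpleGraph V) (σ : V → V) (ℓ : V → ℕ)
    (d : ℕ) :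
    ∀ (n : ℕ) (B' : Finset V), B'.card = n →
    (∀ b ∈ B', G.Adj (σ b) b) →
    (∀ b ∈ B', ∀ a, G.Adj a b → a ≠ σ b → ℓ (σ b) < ℓ a) →
    (∀ a, (B'.filter (fun b => G.Adj a b)).card ≤ d) →
    ∃ c : V → ℕ, (∀ b ∈ B', c b < d) ∧
      (∀ b ∈ B', ∀ b' ∈ B', b ≠ b' → G.Adj (σ b) b' → c b ≠ c b') := by
  intro n
  induction n with
  | zero =>
    intro B' hn _ _ _
    refine ⟨fun _ => 0, ?_, ?_⟩
    · intro b hb
      rw [Finset.card_eq_zero.mp hn] at hb
      simp at hb
    · intro b hb
      rw [Finset.card_eq_zero.mp hn] at hb
      simp at hb
  | succ n ih =>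
    intro B' hn hσ hmin hload
    have hne : B'.Nonempty := by
      rw [← Finset.card_pos]; omega
    obtain ⟨b0, hb0, hmax⟩ := Finset.exists_max_image B' (fun b => ℓ (σ b)) hne
    obtain ⟨c, hc1, hc2⟩ := ih (B'.erase b0) (by rw [Finset.card_erase_of_mem hb0]; omega)
      (fun b hb => hσ b (Finset.mem_of_mem_erase hb))
      (fun b hb => hmin b (Finset.mem_of_mem_erase hb))
      (fun a => le_trans (Finset.card_le_card (Finset.filter_subset_filter _ (Finset.erase_subset _ _)))
        (hload a))
    -- forbidden colours
    set N0 : Finset V := (B'.filter (fun b => G.Adj (σ b0) b)).erase b0 with hN0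
    have hcardN0 : N0.card < d := by
      have hmem : b0 ∈ B'.filter (fun b => G.Adj (σ b0) b) := by
        rw [Finset.mem_filter]; exact ⟨hb0, hσ b0 hb0⟩
      have h1 : N0.card = (B'.filter (fun b => G.Adj (σ b0) b)).card - 1 := Finset.card_erase_of_mem hmem
      have h2 := hload (σ b0)
      have h3 : 0 < (B'.filter (fun b => G.Adj (σ b0) b)).card := Finset.card_pos.mpr ⟨b0, hmem⟩
      omega
    have hex : ∃ x ∈ Finset.range d, x ∉ N0.image c := by
      by_contra hcon
      push Not at hcon
      have hsub : Finset.range d ⊆ N0.image c := fun x hx => hcon x hx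
      have := Finset.card_le_card hsub
      rw [Finset.card_range] at this
      have := le_trans this Finset.card_image_le
      omega
    obtain ⟨x, hxd, hxN⟩ := hex
    refine ⟨Function.update c b0 x, ?_, ?_⟩
    · intro b hb
      by_cases hbb : b = b0
      · subst hbb; simpa using hxd
      · rw [Function.update_of_ne hbb]
        exact hc1 b (Finset.mem_erase.mpr ⟨hbb, hb⟩)
    · intro b hb b' hb' hbb' hadj
      by_cases h1 : b = b0
      · subst h1
        have h2 : b' ≠ b := fun h => hbb' h.symm
        rw [Function.update_self, Function.update_of_ne h2]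
        intro heq
        apply hxN
        rw [Finset.mem_image]
        exact ⟨b', by rw [hN0, Finset.mem_erase, Finset.mem_filter]; exact ⟨h2, hb', hadj⟩, heq.symm⟩
      · by_cases h2 : b' = b0
        · subst h2
          rw [Function.update_self, Function.update_of_ne h1]
          intro heq
          apply hxN
          -- σ b is adjacent to b', so σ b = σ b'
          have hs : σ b = σ b' := by
            by_contra hne'
            have := hmin b' hb' (σ b) hadj hne'
            have := hmax b hb
            omega
          rw [Finset.mem_image]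
          refine ⟨b, ?_, heq⟩
          rw [hN0, Finset.mem_erase, Finset.mem_filter]
          refine ⟨h1, hb, ?_⟩
          rw [← hs]; exact hσ b hb
        · rw [Function.update_of_ne h1, Function.update_of_ne h2]
          exact hc2 b (Finset.mem_erase.mpr ⟨h1, hb⟩) b' (Finset.mem_erase.mpr ⟨h2, hb'⟩) hbb' hadj

end Pool.Agent.MP_61eeb2_co
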