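import Mathlib
import Pool.Agent.Lib.MP_61eeb2_co.Phase

/-!
Assembling phases into a strong edge colouring.
-/

set_option autoImplicit false

namespace Pool.Agent.MP_61eeb2_co

open Finset Classical

/-- Turning a colouring of the oriented edges (first coordinate in `A`) into a colouring of `Sym2 V`. -/
theorem sym2_colouring {V : Type*} (G : SimpleGraph V) (A : Set V)
    (hbip : ∀ u v, G.Adj u v → (u ∈ A ↔ v ∉ A)) (K : ℕ) (f : V → V → ℕ)
    (hf1 : ∀ a ∈ A, ∀ b, G.Adj a b → f a b < K)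
    (hf2 : ∀ a ∈ A, ∀ a' ∈ A, ∀ b b', G.Adj a b → G.Adj a' b' → (a, b) ≠ (a', b') →
      (G.Adj a b' ∨ G.Adj a' b) → f a b ≠ f a' b') :
    ∃ col : Sym2 V → ℕ,
      (∀ a b, G.Adj a b → col s(a, b) < K) ∧
      (∀ a b c d, G.Adj a b → G.Adj c d → s(a, b) ≠ s(c, d) →
        (b = c ∨ G.Adj b c) → col s(a, b) ≠ col s(c, d)) := by
  -- colour of an edge
  set P : Sym2 V → V × V → Prop := fun e x => x.1 ∈ A ∧ G.Adj x.1 x.2 ∧ e = s(x.1, x.2) with hP
  set col : Sym2 V → ℕ := fun e => if h : ∃ x, P e x then f (Classical.choose h).1 (Classical.choose h).2 else 0 with hcol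
  have huniq : ∀ e x y, P e x → P e y → x = y := by
    rintro e ⟨a, b⟩ ⟨a', b'⟩ ⟨ha, hab, he⟩ ⟨ha', hab', he'⟩
    simp only at ha hab he ha' hab' he'
    rw [he] at he'
    rw [Sym2.eq_iff] at he'
    rcases he' with ⟨h1, h2⟩ | ⟨h1, h2⟩
    · rw [h1, h2]
    · exfalso
      have := (hbip a' b' hab').mp ha'
      rw [← h1] at this
      exact this ha
  have hval : ∀ a ∈ A, ∀ b, G.Adj a b → col s(a, b) = f a b := by
    intro a ha b hab
    have hex : ∃ x, P s(a, b) x := ⟨(a, b), ha, hab, rfl⟩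
    have h1 : col s(a, b) = f (Classical.choose hex).1 (Classical.choose hex).2 := by
      simp only [hcol]; rw [dif_pos hex]
    have h2 := huniq s(a, b) _ (a, b) (Classical.choose_spec hex) ⟨ha, hab, rfl⟩
    rw [h1, h2]
  -- every edge can be oriented
  have horient : ∀ a b, G.Adj a b → ∃ x y, x ∈ A ∧ y ∉ A ∧ G.Adj x y ∧ s(a, b) = s(x, y) ∧
      ((x = a ∧ y = b) ∨ (x = b ∧ y = a)) := by
    intro a b hab
    by_cases ha : a ∈ A
    · exact ⟨a, b, ha, (hbip a b hab).mp ha, hab, rfl, Or.inl ⟨rfl, rfl⟩⟩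
    · have hb : b ∈ A := by
        by_contra hb
        exact ha ((hbip a b hab).mpr hb)
      exact ⟨b, a, hb, ha, hab.symm, Sym2.eq_swap, Or.inr ⟨rfl, rfl⟩⟩
  refine ⟨col, ?_, ?_⟩
  · intro a b hab
    obtain ⟨x, y, hx, _, hxy, hs, _⟩ := horient a b hab
    rw [hs, hval x hx y hxy]
    exact hf1 x hx y hxy
  · intro a b c d hab hcd hne hconf
    obtain ⟨x, y, hx, hy, hxy, hs, hxyab⟩ := horient a b hab
    obtain ⟨x', y', hx', hy', hxy', hs', hxycd⟩ := horient c d hcd
    rw [hs, hs', hval x hx y hxy, hval x' hx' y' hxy']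
    apply hf2 x hx x' hx' y y' hxy hxy'
    · intro heq
      rw [Prod.mk.injEq] at heq
      apply hne
      rw [hs, hs', heq.1, heq.2]
    · rcases hxyab with ⟨h1, h2⟩ | ⟨h1, h2⟩ <;> rcases hxycd with ⟨h3, h4⟩ | ⟨h3, h4⟩ <;>
        subst h1 <;> subst h2 <;> subst h3 <;> subst h4 <;> rcases hconf with h | h
      · -- x = a, y = b, x' = c, y' = d ; b = c
        exact absurd (h ▸ hx') hy
      · right; exact h.symm
      · subst h; left; exact hxy
      · exfalso
        exact hy' ((hbip _ _ h).mpr.mt (by simp [hy]) |> fun h' => by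
          by_contra hcon; exact hy ((hbip _ _ h).mpr hcon))
      · subst h; left; exact hxy'
      · exfalso
        exact ((hbip _ _ h).mp hx) hx'
      · exact absurd (h ▸ hx) hy'
      · left; exact h

/-- Phases give a strong edge colouring. -/
theorem strong_of_phases {V : Type*} [Fintype V] (G : SimpleGraph V) (A : Set V)
    (hbip : ∀ u v, G.Adj u v → (u ∈ A ↔ v ∉ A)) (m d : ℕ)
    (ℓ : Fin m → V → ℕ) (jj : V → V → Fin m)
    (h1 : ∀ a ∈ A, ∀ b, G.Adj a b → ∀ a', G.Adj a' b → a' ≠ a → ℓ (jj a b) a < ℓ (jj a b) a')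
    (h2 : ∀ a ∈ A, ∀ j, (Finset.univ.filter
      (fun b => G.Adj a b ∧ ∃ a', G.Adj a' b ∧ jj a' b = j)).card ≤ d) :
    ∃ col : Sym2 V → ℕ,
      (∀ a b, G.Adj a b → col s(a, b) < m * d) ∧
      (∀ a b c d, G.Adj a b → G.Adj c d → s(a, b) ≠ s(c, d) →
        (b = c ∨ G.Adj b c) → col s(a, b) ≠ col s(c, d)) := by
  -- active vertices of phase j
  set act : Fin m → V → Prop := fun j b => b ∉ A ∧ ∃ a', G.Adj a' b ∧ jj a' b = j with hact
  set σ : Fin m → V → V := fun j b => if h : ∃ a', G.Adj a' b ∧ jj a' b = j then Classical.choose h else b with hσ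
  have hσspec : ∀ j b, act j b → G.Adj (σ j b) b ∧ jj (σ j b) b = j ∧ σ j b ∈ A := by
    intro j b hb
    have hex := hb.2
    have e1 : σ j b = Classical.choose hex := by simp only [hσ]; rw [dif_pos hex]
    have e2 := Classical.choose_spec hex
    rw [← e1] at e2
    refine ⟨e2.1, e2.2, ?_⟩
    exact (hbip _ _ e2.1).mpr hb.1
  have hσuniq : ∀ j a b, a ∈ A → G.Adj a b → jj a b = j → act j b ∧ σ j b = a := by
    intro j a b ha hab hj
    have hb : act j b := ⟨(hbip a b hab).mp ha, a, hab, hj⟩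
    refine ⟨hb, ?_⟩
    obtain ⟨e1, e2, e3⟩ := hσspec j b hb
    by_contra hne
    have f1 := h1 a ha b hab (σ j b) e1 hne
    have f2 := h1 (σ j b) e3 b e1 a hab (fun h => hne h.symm)
    rw [hj] at f1
    rw [e2] at f2
    omega
  have hphase : ∀ j : Fin m, ∃ c : V → ℕ, (∀ b ∈ Finset.univ.filter (act j), c b < d) ∧
      (∀ b ∈ Finset.univ.filter (act j), ∀ b' ∈ Finset.univ.filter (act j), b ≠ b' →
        G.Adj (σ j b) b' → c b ≠ c b') := by
    intro j
    apply phase_colouring G (σ j) (ℓ j) d (Finset.univ.filter (act j)).card _ rfl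
    · intro b hb
      exact (hσspec j b (Finset.mem_filter.mp hb).2).1
    · intro b hb a hab hne
      obtain ⟨e1, e2, e3⟩ := hσspec j b (Finset.mem_filter.mp hb).2
      have := h1 (σ j b) e3 b e1 a hab hne
      rw [e2] at this
      exact this
    · intro a
      by_cases ha : a ∈ A
      · refine le_trans (Finset.card_le_card ?_) (h2 a ha j)
        intro b hb
        rw [Finset.mem_filter, Finset.mem_filter] at hb
        rw [Finset.mem_filter]
        exact ⟨Finset.mem_univ _, hb.2, hb.1.2.2⟩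
      · have : (Finset.univ.filter (act j)).filter (fun b => G.Adj a b) = ∅ := by
          rw [Finset.filter_eq_empty_iff]
          intro b hb hab
          rw [Finset.mem_filter] at hb
          exact ha ((hbip a b hab).mpr hb.2.1)
        rw [this]; simp
  choose c hc1 hc2 using hphase
  apply sym2_colouring G A hbip (m * d) (fun a b => (jj a b : ℕ) * d + c (jj a b) b)
  · intro a ha b hab
    obtain ⟨hb, _⟩ := hσuniq (jj a b) a b ha hab rfl
    have := hc1 (jj a b) b (Finset.mem_filter.mpr ⟨Finset.mem_univ _, hb⟩)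
    have hj := (jj a b).isLt
    calc (jj a b : ℕ) * d + c (jj a b) b < (jj a b : ℕ) * d + d := by omega
      _ = ((jj a b : ℕ) + 1) * d := by ring
      _ ≤ m * d := Nat.mul_le_mul_right d hj
  · intro a ha a' ha' b b' hab hab' hne hconf heq
    obtain ⟨hb, hsb⟩ := hσuniq (jj a b) a b ha hab rfl
    obtain ⟨hb', hsb'⟩ := hσuniq (jj a' b') a' b' ha' hab' rfl
    have hlt := hc1 (jj a b) b (Finset.mem_filter.mpr ⟨Finset.mem_univ _, hb⟩)
    have hlt' := hc1 (jj a' b') b' (Finset.mem_filter.mpr ⟨Finset.mem_univ _, hb'⟩)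
    have hdpos : 0 < d := by omega
    have hjj : (jj a b : ℕ) = (jj a' b' : ℕ) := by
      have e1 : ((jj a b : ℕ) * d + c (jj a b) b) / d = (jj a b : ℕ) := by
        rw [mul_comm, Nat.mul_add_div hdpos, Nat.div_eq_of_lt hlt, add_zero]
      have e2 : ((jj a' b' : ℕ) * d + c (jj a' b') b') / d = (jj a' b' : ℕ) := by
        rw [mul_comm, Nat.mul_add_div hdpos, Nat.div_eq_of_lt hlt', add_zero]
      rw [← e1, ← e2, heq]
    have hjj' : jj a b = jj a' b' := Fin.ext hjj
    have hcc : c (jj a b) b = c (jj a' b') b' := by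
      rw [hjj] at heq; omega
    rw [← hjj'] at hcc hb' hsb'
    by_cases hbb : b = b'
    · subst hbb
      apply hne
      rw [← hsb, ← hsb']
    · rcases hconf with h | h
      · apply hc2 (jj a b) b (Finset.mem_filter.mpr ⟨Finset.mem_univ _, hb⟩) b'
          (Finset.mem_filter.mpr ⟨Finset.mem_univ _, hb'⟩) hbb _ hcc
        rw [hsb]; exact h
      · apply hc2 (jj a b) b' (Finset.mem_filter.mpr ⟨Finset.mem_univ _, hb'⟩) b
          (Finset.mem_filter.mpr ⟨Finset.mem_univ _, hb⟩) (fun h => hbb h.symm) _ hcc.symm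
        rw [hsb']; exact h

end Pool.Agent.MP_61eeb2_co
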