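import Mathlib

/-!
A symmetric Lovász local lemma on a finite product space (counting form).
-/

set_option autoImplicit false

namespace Pool.Agent.MP_61eeb2_co

open Finset Classical

/-- number of points of a type satisfying `P` -/
noncomputable def cnt {Ω : Type*} (P : Ω → Prop) : ℝ := (Set.ncard {ω | P ω} : ℝ)

theorem cnt_nonneg {Ω : Type*} (P : Ω → Prop) : 0 ≤ cnt P := Nat.cast_nonneg _

theorem cnt_mono {Ω : Type*} [Finite Ω] {P Q : Ω → Prop} (h : ∀ ω, P ω → Q ω) :
    cnt P ≤ cnt Q := by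
  unfold cnt
  exact_mod_cast Set.ncard_le_ncard (fun ω hω => h ω hω) (Set.toFinite _)

theorem cnt_or_le {Ω : Type*} (P Q : Ω → Prop) :
    cnt (fun ω => P ω ∨ Q ω) ≤ cnt P + cnt Q := by
  unfold cnt
  rw [← Nat.cast_add, Nat.cast_le]
  exact Set.ncard_union_le _ _

theorem cnt_biUnion_le {Ω E : Type*} (S : Finset E) (P : E → Ω → Prop) :
    cnt (fun ω => ∃ g ∈ S, P g ω) ≤ ∑ g ∈ S, cnt (P g) := by
  induction S using Finset.induction_on with
  | empty => simp [cnt]
  | insert g S hg ih =>
    rw [Finset.sum_insert hg]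
    have h1 : cnt (fun ω => ∃ g' ∈ insert g S, P g' ω)
        = cnt (fun ω => P g ω ∨ ∃ g' ∈ S, P g' ω) := by
      congr 1; funext ω; simp
    rw [h1]
    exact le_trans (cnt_or_le _ _) (by linarith)

section LLL

variable {ι κ E : Type*} [Finite ι] [Finite κ] [Fintype E]

/-- mixing two points along a set of coordinates -/
noncomputable def mix (I : Finset ι) (ω ω' : ι → κ) : ι → κ := fun i => if i ∈ I then ω i else ω' i

theorem cnt_indep (I : Finset ι) (P Q : (ι → κ) → Prop)
    (hP : ∀ ω ω', (∀ i ∈ I, ω i = ω' i) → P ω → P ω')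
    (hQ : ∀ ω ω', (∀ i, i ∉ I → ω i = ω' i) → Q ω → Q ω') :
    cnt (fun ω => P ω ∧ Q ω) * cnt (fun _ : ι → κ => True) = cnt P * cnt Q := by
  unfold cnt
  rw [← Nat.cast_mul, ← Nat.cast_mul, ← Set.ncard_prod, ← Set.ncard_prod]
  congr 1
  apply Set.ncard_congr (fun x _ => (mix I x.1 x.2, mix I x.2 x.1))
  · rintro ⟨ω, ω'⟩ hx
    simp only [Set.mem_prod, Set.mem_setOf_eq] at hx ⊢
    obtain ⟨⟨hPω, hQω⟩, _⟩ := hx
    constructor
    · apply hP ω _ _ hPω
      intro i hi; simp [mix, hi]
    · apply hQ ω _ _ hQω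
      intro i hi; simp [mix, hi]
  · rintro ⟨ω, ω'⟩ ⟨α, α'⟩ _ _ h
    simp only [Prod.mk.injEq] at h
    obtain ⟨h1, h2⟩ := h
    rw [Prod.mk.injEq]
    constructor
    · funext i
      by_cases hi : i ∈ I
      · have := congrFun h1 i; simpa [mix, hi] using this
      · have := congrFun h2 i; simpa [mix, hi] using this
    · funext i
      by_cases hi : i ∈ I
      · have := congrFun h2 i; simpa [mix, hi] using this
      · have := congrFun h1 i; simpa [mix, hi] using this
  · rintro ⟨ω, ω'⟩ hx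
    simp only [Set.mem_prod, Set.mem_setOf_eq] at hx
    obtain ⟨hPω, hQω⟩ := hx
    refine ⟨(mix I ω ω', mix I ω' ω), ?_, ?_⟩
    · simp only [Set.mem_prod, Set.mem_setOf_eq]
      refine ⟨⟨?_, ?_⟩, trivial⟩
      · apply hP ω _ _ hPω
        intro i hi; simp [mix, hi]
      · apply hQ ω' _ _ hQω
        intro i hi; simp [mix, hi]
    · simp only [Prod.mk.injEq]
      constructor <;> (funext i; by_cases hi : i ∈ I <;> simp [mix, hi])

theorem lll [Nonempty κ] (vbl : E → Finset ι) (bad : E → (ι → κ) → Prop)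
    (hdep : ∀ e ω ω', (∀ i ∈ vbl e, ω i = ω' i) → bad e ω → bad e ω')
    (p : ℝ) (d : ℕ) (hp0 : 0 ≤ p) (hp4 : p ≤ 1 / 4)
    (hp : ∀ e, cnt (bad e) ≤ p * cnt (fun _ : ι → κ => True))
    (hd : ∀ e, (Finset.univ.filter (fun f => ¬ Disjoint (vbl e) (vbl f))).card ≤ d)
    (h4 : 4 * p * d ≤ 1) :
    ∃ ω : ι → κ, ∀ e, ¬ bad e ω := by
  have hT : 0 < cnt (fun _ : ι → κ => True) := by
    unfold cnt
    rw [Nat.cast_pos, Set.ncard_pos (Set.toFinite _)]
    exact ⟨fun _ => Classical.arbitrary κ, trivial⟩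
  -- key claim
  have key : ∀ (n : ℕ) (S : Finset E), S.card ≤ n → ∀ e,
      cnt (fun ω => bad e ω ∧ ∀ f ∈ S, ¬ bad f ω) ≤ 2 * p * cnt (fun ω => ∀ f ∈ S, ¬ bad f ω) := by
    intro n
    induction n with
    | zero =>
      intro S hS e
      have hS0 : S = ∅ := Finset.card_eq_zero.mp (Nat.le_zero.mp hS)
      subst hS0
      have h1 : cnt (fun ω => bad e ω ∧ ∀ f ∈ (∅ : Finset E), ¬ bad f ω) ≤ cnt (bad e) :=
        cnt_mono (fun ω h => h.1)
      have h2 : cnt (fun ω : ι → κ => ∀ f ∈ (∅ : Finset E), ¬ bad f ω)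
          = cnt (fun _ : ι → κ => True) := by
        congr 1; funext ω; simp
      rw [h2]
      nlinarith [hp e]
    | succ n ih =>
      intro S hS e
      set S1 := S.filter (fun f => ¬ Disjoint (vbl e) (vbl f)) with hS1
      set S2 := S.filter (fun f => Disjoint (vbl e) (vbl f)) with hS2
      have hA : cnt (fun ω => bad e ω ∧ ∀ f ∈ S, ¬ bad f ω)
          ≤ cnt (fun ω => bad e ω ∧ ∀ f ∈ S2, ¬ bad f ω) :=
        cnt_mono (fun ω h => ⟨h.1, fun f hf => h.2 f (Finset.mem_of_mem_filter f hf)⟩)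
      have hB : cnt (fun ω => bad e ω ∧ ∀ f ∈ S2, ¬ bad f ω) * cnt (fun _ : ι → κ => True)
          = cnt (bad e) * cnt (fun ω => ∀ f ∈ S2, ¬ bad f ω) := by
        apply cnt_indep (vbl e)
        · exact hdep e
        · intro ω ω' hω hQ f hf hbad
          have hdis : Disjoint (vbl e) (vbl f) := (Finset.mem_filter.mp hf).2
          apply hQ f hf
          apply hdep f ω' ω _ hbad
          intro i hi
          exact (hω i (fun hie => (Finset.disjoint_left.mp hdis) hie hi)).symm
      have hC : cnt (fun ω => bad e ω ∧ ∀ f ∈ S2, ¬ bad f ω)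
          ≤ p * cnt (fun ω => ∀ f ∈ S2, ¬ bad f ω) := by
        have h1 : cnt (fun ω => bad e ω ∧ ∀ f ∈ S2, ¬ bad f ω) * cnt (fun _ : ι → κ => True)
            ≤ (p * cnt (fun ω => ∀ f ∈ S2, ¬ bad f ω)) * cnt (fun _ : ι → κ => True) := by
          rw [hB]
          nlinarith [hp e, cnt_nonneg (fun ω : ι → κ => ∀ f ∈ S2, ¬ bad f ω)]
        exact le_of_mul_le_mul_right h1 hT
      -- lower bound for cnt S
      have hD : cnt (fun ω : ι → κ => ∀ f ∈ S2, ¬ bad f ω)
          ≤ 2 * cnt (fun ω => ∀ f ∈ S, ¬ bad f ω) := by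
        by_cases hS1e : S1 = ∅
        · have : ∀ f ∈ S, f ∈ S2 := by
            intro f hf
            rw [hS2, Finset.mem_filter]
            refine ⟨hf, ?_⟩
            by_contra hcon
            have : f ∈ S1 := by rw [hS1, Finset.mem_filter]; exact ⟨hf, hcon⟩
            rw [hS1e] at this; simp at this
          have h1 : cnt (fun ω : ι → κ => ∀ f ∈ S2, ¬ bad f ω)
              ≤ cnt (fun ω => ∀ f ∈ S, ¬ bad f ω) :=
            cnt_mono (fun ω h f hf => h f (this f hf))
          linarith [cnt_nonneg (fun ω : ι → κ => ∀ f ∈ S, ¬ bad f ω)]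
        · have hcard2 : S2.card ≤ n := by
            have h1 : S2.card + S1.card = S.card := by
              rw [hS1, hS2]
              exact Finset.card_filter_add_card_filter_not (fun f => Disjoint (vbl e) (vbl f))
            have h2 : 0 < S1.card := Finset.card_pos.mpr (Finset.nonempty_iff_ne_empty.mpr hS1e)
            omega
          -- union bound
          have hU : cnt (fun ω : ι → κ => ∀ f ∈ S2, ¬ bad f ω)
              ≤ cnt (fun ω => ∀ f ∈ S, ¬ bad f ω)
                + ∑ g ∈ S1, cnt (fun ω => bad g ω ∧ ∀ f ∈ S2, ¬ bad f ω) := by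
            have h1 : cnt (fun ω : ι → κ => ∀ f ∈ S2, ¬ bad f ω)
                ≤ cnt (fun ω => (∀ f ∈ S, ¬ bad f ω) ∨
                    ∃ g ∈ S1, (bad g ω ∧ ∀ f ∈ S2, ¬ bad f ω)) := by
              apply cnt_mono
              intro ω hω
              by_cases hall : ∀ f ∈ S, ¬ bad f ω
              · left; exact hall
              · right
                push Not at hall
                obtain ⟨g, hg, hbg⟩ := hall
                refine ⟨g, ?_, hbg, hω⟩
                rw [hS1, Finset.mem_filter]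
                refine ⟨hg, fun hdis => ?_⟩
                exact hω g (by rw [hS2, Finset.mem_filter]; exact ⟨hg, hdis⟩) hbg
            refine le_trans h1 (le_trans (cnt_or_le _ _) ?_)
            gcongr
            exact cnt_biUnion_le S1 (fun g ω => bad g ω ∧ ∀ f ∈ S2, ¬ bad f ω)
          have hV : ∑ g ∈ S1, cnt (fun ω => bad g ω ∧ ∀ f ∈ S2, ¬ bad f ω)
              ≤ (1/2) * cnt (fun ω : ι → κ => ∀ f ∈ S2, ¬ bad f ω) := by
            have h1 : ∑ g ∈ S1, cnt (fun ω => bad g ω ∧ ∀ f ∈ S2, ¬ bad f ω)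
                ≤ ∑ _g ∈ S1, 2 * p * cnt (fun ω : ι → κ => ∀ f ∈ S2, ¬ bad f ω) :=
              Finset.sum_le_sum (fun g _ => ih S2 hcard2 g)
            rw [Finset.sum_const, nsmul_eq_mul] at h1
            have h2 : (S1.card : ℝ) ≤ d := by
              have : S1.card ≤ d := by
                refine le_trans (Finset.card_le_card ?_) (hd e)
                rw [hS1]
                exact Finset.filter_subset_filter _ (Finset.subset_univ _)
              exact_mod_cast this
            have h3 := cnt_nonneg (fun ω : ι → κ => ∀ f ∈ S2, ¬ bad f ω)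
            have h4' : (S1.card : ℝ) * (2 * p) ≤ 1/2 := by nlinarith
            nlinarith
          linarith
      nlinarith [cnt_nonneg (fun ω : ι → κ => ∀ f ∈ S, ¬ bad f ω)]
  -- positivity
  have pos : ∀ S : Finset E, 0 < cnt (fun ω : ι → κ => ∀ f ∈ S, ¬ bad f ω) := by
    intro S
    induction S using Finset.induction_on with
    | empty =>
      have h2 : cnt (fun ω : ι → κ => ∀ f ∈ (∅ : Finset E), ¬ bad f ω)
          = cnt (fun _ : ι → κ => True) := by
        congr 1; funext ω; simp
      rw [h2]; exact hT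
    | insert g S hg ih =>
      have h1 : cnt (fun ω : ι → κ => ∀ f ∈ S, ¬ bad f ω)
          ≤ cnt (fun ω => ∀ f ∈ insert g S, ¬ bad f ω)
            + cnt (fun ω => bad g ω ∧ ∀ f ∈ S, ¬ bad f ω) := by
        refine le_trans (cnt_mono ?_) (cnt_or_le _ _)
        intro ω hω
        by_cases hb : bad g ω
        · right; exact ⟨hb, hω⟩
        · left
          intro f hf
          rcases Finset.mem_insert.mp hf with h | h
          · rw [h]; exact hb
          · exact hω f h
      have h2 := key S.card S le_rfl g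
      nlinarith
  have := pos Finset.univ
  unfold cnt at this
  rw [Nat.cast_pos, Set.ncard_pos (Set.toFinite _)] at this
  obtain ⟨ω, hω⟩ := this
  exact ⟨ω, fun e => hω e (Finset.mem_univ e)⟩

end LLL

end Pool.Agent.MP_61eeb2_co
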