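import Mathlib
import Pool.Agent.Lib.MP_61eeb2_co.LLL

/-!
Exponential tail bounds on finite product spaces (counting form).
-/

set_option autoImplicit false

namespace Pool.Agent.MP_61eeb2_co

open Finset Classical

theorem cnt_eq_sum {Ω : Type*} [Fintype Ω] (P : Ω → Prop) :
    cnt P = ∑ ω : Ω, (if P ω then (1:ℝ) else 0) := by
  unfold cnt
  rw [Finset.sum_ite, Finset.sum_const_zero, add_zero, Finset.sum_const, nsmul_eq_mul, mul_one]
  congr 1
  rw [Set.ncard_eq_toFinset_card' {ω | P ω}]
  congr 1
  ext ω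
  simp

theorem cnt_true {Ω : Type*} [Fintype Ω] : cnt (fun _ : Ω => True) = (Fintype.card Ω : ℝ) := by
  rw [cnt_eq_sum]; simp

theorem sum_pi_prod {ι Y : Type*} [Fintype ι] [Fintype Y] (g : ι → Y → ℝ) :
    ∑ c : ι → Y, ∏ i, g i (c i) = ∏ i, ∑ y, g i y := by
  rw [Finset.prod_univ_sum (fun _ => Finset.univ) g, Fintype.piFinset_univ]

theorem chernoff_upper {ι Y : Type*} [Fintype ι] [Fintype Y] (S : Finset ι)
    (Act : ι → Y → Prop) (q : ℝ)
    (hq : ∀ i ∈ S, cnt (Act i) ≤ q * (Fintype.card Y : ℝ)) (t : ℝ) (ht : 0 ≤ t) (d : ℕ) :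
    cnt (fun c : ι → Y => d ≤ (S.filter (fun i => Act i (c i))).card)
      ≤ Real.exp (- t * d + (S.card : ℝ) * (q * (Real.exp t - 1))) * cnt (fun _ : ι → Y => True) := by
  have hexp : 1 ≤ Real.exp t := Real.one_le_exp ht
  -- exponential weight
  set g : ι → Y → ℝ := fun i y => if i ∈ S ∧ Act i y then Real.exp t else 1 with hg
  have hgpos : ∀ i y, 0 < g i y := by
    intro i y
    simp only [hg]
    split_ifs
    · exact Real.exp_pos t
    · exact one_pos
  have hprod : ∀ c : ι → Y, ∏ i, g i (c i)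
      = Real.exp (t * ((S.filter (fun i => Act i (c i))).card : ℝ)) := by
    intro c
    simp only [hg]
    rw [Finset.prod_ite, Finset.prod_const_one, mul_one, Finset.prod_const, ← Real.exp_nat_mul,
      mul_comm]
    congr 3
    congr 1
    ext i
    simp
  have hsum1 : cnt (fun c : ι → Y => d ≤ (S.filter (fun i => Act i (c i))).card)
      ≤ ∑ c : ι → Y, Real.exp (- t * d) * ∏ i, g i (c i) := by
    rw [cnt_eq_sum]
    apply Finset.sum_le_sum
    intro c _
    rw [hprod c, ← Real.exp_add]
    split_ifs with h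
    · apply Real.one_le_exp
      have h' : (d:ℝ) ≤ ((S.filter (fun i => Act i (c i))).card : ℝ) := by exact_mod_cast h
      nlinarith
    · exact (Real.exp_pos _).le
  have hsum2 : ∑ c : ι → Y, Real.exp (- t * d) * ∏ i, g i (c i)
      = Real.exp (- t * d) * ∏ i, ∑ y, g i y := by
    rw [← Finset.mul_sum, sum_pi_prod]
  have hcard : cnt (fun _ : ι → Y => True) = ∏ _i : ι, (Fintype.card Y : ℝ) := by
    rw [cnt_true, Fintype.card_fun, Finset.prod_const, Finset.card_univ]
    push_cast; rfl
  have hfac : ∀ i, ∑ y, g i y ≤ (Fintype.card Y : ℝ) *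
      (if i ∈ S then Real.exp (q * (Real.exp t - 1)) else 1) := by
    intro i
    by_cases hi : i ∈ S
    · rw [if_pos hi]
      have h1 : ∑ y, g i y = (Fintype.card Y : ℝ) + (Real.exp t - 1) * cnt (Act i) := by
        rw [cnt_eq_sum, Finset.mul_sum]
        have : (Fintype.card Y : ℝ) = ∑ _y : Y, (1:ℝ) := by simp
        rw [this, ← Finset.sum_add_distrib]
        apply Finset.sum_congr rfl
        intro y _
        simp only [hg]
        by_cases hy : Act i y
        · simp [hi, hy]
        · simp [hi, hy]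
      rw [h1]
      have h2 : 1 + q * (Real.exp t - 1) ≤ Real.exp (q * (Real.exp t - 1)) := by
        have := Real.add_one_le_exp (q * (Real.exp t - 1))
        linarith
      have h3 := hq i hi
      have h4 : (0:ℝ) ≤ (Fintype.card Y : ℝ) := Nat.cast_nonneg _
      nlinarith
    · rw [if_neg hi, mul_one]
      have : ∀ y, g i y = 1 := by
        intro y; simp only [hg]; rw [if_neg (fun h => hi h.1)]
      simp [this]
  have hprodle : ∏ i, ∑ y, g i y ≤ ∏ i, ((Fintype.card Y : ℝ) *
      (if i ∈ S then Real.exp (q * (Real.exp t - 1)) else 1)) := by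
    apply Finset.prod_le_prod
    · intro i _; exact Finset.sum_nonneg (fun y _ => (hgpos i y).le)
    · intro i _; exact hfac i
  have hprod2 : ∏ i, ((Fintype.card Y : ℝ) *
      (if i ∈ S then Real.exp (q * (Real.exp t - 1)) else 1))
      = (∏ _i : ι, (Fintype.card Y : ℝ)) * Real.exp ((S.card : ℝ) * (q * (Real.exp t - 1))) := by
    rw [Finset.prod_mul_distrib]
    congr 1
    rw [Finset.prod_ite, Finset.prod_const_one, mul_one, Finset.prod_const, ← Real.exp_nat_mul]
    congr 3
    congr 1
    ext i; simp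
  calc cnt (fun c : ι → Y => d ≤ (S.filter (fun i => Act i (c i))).card)
      ≤ Real.exp (- t * d) * ∏ i, ∑ y, g i y := by rw [← hsum2]; exact hsum1
    _ ≤ Real.exp (- t * d) * ((∏ _i : ι, (Fintype.card Y : ℝ)) *
          Real.exp ((S.card : ℝ) * (q * (Real.exp t - 1)))) := by
        rw [← hprod2]
        exact mul_le_mul_of_nonneg_left hprodle (Real.exp_pos _).le
    _ = Real.exp (- t * d + (S.card : ℝ) * (q * (Real.exp t - 1))) * cnt (fun _ : ι → Y => True) := by
        rw [hcard, Real.exp_add]; ring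

theorem chernoff_lower {ι X : Type*} [Fintype ι] [Fintype X] (I : X → Prop) (p : ℝ)
    (hp : p * (Fintype.card X : ℝ) ≤ cnt I) (t : ℝ) (ht : 0 ≤ t) (s : ℕ) :
    cnt (fun c : ι → X => (Finset.univ.filter (fun i => I (c i))).card < s)
      ≤ Real.exp (t * s - (Fintype.card ι : ℝ) * (p * (1 - Real.exp (-t))))
        * cnt (fun _ : ι → X => True) := by
  have hexp : Real.exp (-t) ≤ 1 := by
    rw [← Real.exp_zero]; apply Real.exp_le_exp.mpr; linarith
  set g : ι → X → ℝ := fun _ y => if I y then Real.exp (-t) else 1 with hg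
  have hgpos : ∀ i y, 0 < g i y := by
    intro i y
    simp only [hg]
    split_ifs
    · exact Real.exp_pos _
    · exact one_pos
  have hprod : ∀ c : ι → X, ∏ i, g i (c i)
      = Real.exp (-t * ((Finset.univ.filter (fun i => I (c i))).card : ℝ)) := by
    intro c
    simp only [hg]
    rw [Finset.prod_ite, Finset.prod_const_one, mul_one, Finset.prod_const, ← Real.exp_nat_mul,
      mul_comm]
  have hsum1 : cnt (fun c : ι → X => (Finset.univ.filter (fun i => I (c i))).card < s)
      ≤ ∑ c : ι → X, Real.exp (t * s) * ∏ i, g i (c i) := by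
    rw [cnt_eq_sum]
    apply Finset.sum_le_sum
    intro c _
    rw [hprod c, ← Real.exp_add]
    split_ifs with h
    · apply Real.one_le_exp
      have h' : ((Finset.univ.filter (fun i => I (c i))).card : ℝ) ≤ (s:ℝ) := by
        exact_mod_cast h.le
      nlinarith
    · exact (Real.exp_pos _).le
  have hsum2 : ∑ c : ι → X, Real.exp (t * s) * ∏ i, g i (c i)
      = Real.exp (t * s) * ∏ i, ∑ y, g i y := by
    rw [← Finset.mul_sum, sum_pi_prod]
  have hcard : cnt (fun _ : ι → X => True) = ∏ _i : ι, (Fintype.card X : ℝ) := by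
    rw [cnt_true, Fintype.card_fun, Finset.prod_const, Finset.card_univ]
    push_cast; rfl
  have hfac : ∀ i, ∑ y, g i y ≤ (Fintype.card X : ℝ) * Real.exp (-(p * (1 - Real.exp (-t)))) := by
    intro i
    have h1 : ∑ y, g i y = (Fintype.card X : ℝ) - (1 - Real.exp (-t)) * cnt I := by
      rw [cnt_eq_sum, Finset.mul_sum]
      have : (Fintype.card X : ℝ) = ∑ _y : X, (1:ℝ) := by simp
      rw [this, ← Finset.sum_sub_distrib]
      apply Finset.sum_congr rfl
      intro y _
      simp only [hg]
      by_cases hy : I y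
      · simp [hy]
      · simp [hy]
    rw [h1]
    have h2 := Real.add_one_le_exp (-(p * (1 - Real.exp (-t))))
    have h4 : (0:ℝ) ≤ (Fintype.card X : ℝ) := Nat.cast_nonneg _
    have h5 : (0:ℝ) ≤ 1 - Real.exp (-t) := by linarith
    nlinarith
  have hprodle : ∏ i, ∑ y, g i y ≤ ∏ _i : ι, ((Fintype.card X : ℝ) *
      Real.exp (-(p * (1 - Real.exp (-t))))) := by
    apply Finset.prod_le_prod
    · intro i _; exact Finset.sum_nonneg (fun y _ => (hgpos i y).le)
    · intro i _; exact hfac i
  have hprod2 : ∏ _i : ι, ((Fintype.card X : ℝ) * Real.exp (-(p * (1 - Real.exp (-t)))))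
      = (∏ _i : ι, (Fintype.card X : ℝ)) *
        Real.exp (-((Fintype.card ι : ℝ) * (p * (1 - Real.exp (-t))))) := by
    rw [Finset.prod_mul_distrib]
    congr 1
    rw [Finset.prod_const, ← Real.exp_nat_mul, Finset.card_univ]
    congr 1; ring
  calc cnt (fun c : ι → X => (Finset.univ.filter (fun i => I (c i))).card < s)
      ≤ Real.exp (t * s) * ∏ i, ∑ y, g i y := by rw [← hsum2]; exact hsum1
    _ ≤ Real.exp (t * s) * ((∏ _i : ι, (Fintype.card X : ℝ)) *
          Real.exp (-((Fintype.card ι : ℝ) * (p * (1 - Real.exp (-t)))))) := by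
        rw [← hprod2]
        exact mul_le_mul_of_nonneg_left hprodle (Real.exp_pos _).le
    _ = _ := by
        rw [hcard, show t * (s:ℝ) - (Fintype.card ι : ℝ) * (p * (1 - Real.exp (-t)))
          = t * s + (-((Fintype.card ι : ℝ) * (p * (1 - Real.exp (-t))))) from sub_eq_add_neg _ _,
          Real.exp_add]; ring

end Pool.Agent.MP_61eeb2_co
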