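import Mathlib
import Pool.Agent.Lib.MP_61eeb2_co.Chernoff

/-!
Probability that a given element of a small set receives the strictly smallest random label.
-/

set_option autoImplicit false

namespace Pool.Agent.MP_61eeb2_co

open Finset Classical

theorem pow_succ_sub_le (z : ℕ) (h : ℕ) : ((z:ℝ) + 1) ^ (h + 1) - (z:ℝ) ^ (h + 1) ≤ (h + 1) * ((z:ℝ) + 1) ^ h := by
  induction h with
  | zero => simp
  | succ h ih =>
    have hz : (0:ℝ) ≤ z := Nat.cast_nonneg z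
    have h1 : (z:ℝ) ^ (h+1) ≤ ((z:ℝ) + 1) ^ (h+1) := by gcongr; linarith
    have e1 : ((z:ℝ) + 1) ^ (h + 1 + 1) - (z:ℝ) ^ (h + 1 + 1)
        = ((z:ℝ) + 1) * (((z:ℝ) + 1) ^ (h + 1) - (z:ℝ) ^ (h + 1)) + (z:ℝ) ^ (h+1) := by ring
    have e2 : ((z:ℝ) + 1) * (((z:ℝ) + 1) ^ (h + 1) - (z:ℝ) ^ (h + 1))
        ≤ ((z:ℝ) + 1) * ((h + 1) * ((z:ℝ) + 1) ^ h) := by
      apply mul_le_mul_of_nonneg_left ih; linarith
    rw [e1]
    push_cast
    calc ((z:ℝ) + 1) * (((z:ℝ) + 1) ^ (h + 1) - (z:ℝ) ^ (h + 1)) + (z:ℝ) ^ (h+1)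
        ≤ ((z:ℝ) + 1) * ((h + 1) * ((z:ℝ) + 1) ^ h) + ((z:ℝ) + 1) ^ (h+1) := by linarith
      _ = ((h:ℝ) + 1 + 1) * ((z:ℝ) + 1) ^ (h+1) := by ring

theorem sum_pow_ge (Q h : ℕ) : (Q:ℝ) ^ (h+1) / (h+1) - (Q:ℝ) ^ h ≤ ∑ z ∈ Finset.range Q, (z:ℝ) ^ h := by
  have h1 : (Q:ℝ) ^ (h+1) ≤ (h+1) * ∑ z ∈ Finset.range Q, ((z:ℝ) + 1) ^ h := by
    have hz : (Q:ℝ) ^ (h+1) = ∑ z ∈ Finset.range Q, (((z:ℝ) + 1) ^ (h + 1) - (z:ℝ) ^ (h + 1)) := by
      have := Finset.sum_range_sub (fun z : ℕ => (z:ℝ) ^ (h+1)) Q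
      simp only [Nat.cast_add, Nat.cast_one, Nat.cast_zero] at this
      rw [this]; simp
    rw [hz, Finset.mul_sum]
    exact Finset.sum_le_sum (fun z _ => pow_succ_sub_le z h)
  have h2 : ∑ z ∈ Finset.range Q, ((z:ℝ) + 1) ^ h ≤ ∑ z ∈ Finset.range Q, (z:ℝ) ^ h + (Q:ℝ) ^ h := by
    have e1 : ∑ z ∈ Finset.range Q, ((z:ℝ) + 1) ^ h = ∑ z ∈ Finset.range Q, (((z+1 : ℕ):ℝ)) ^ h := by
      push_cast; rfl
    rw [e1]
    have e2 := Finset.sum_range_succ' (fun z : ℕ => ((z:ℕ):ℝ) ^ h) Q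
    have e3 := Finset.sum_range_succ (fun z : ℕ => ((z:ℕ):ℝ) ^ h) Q
    have e4 : (0:ℝ) ≤ (((0:ℕ):ℝ)) ^ h := by positivity
    linarith
  have hh : (0:ℝ) < (h:ℝ) + 1 := by positivity
  have h3 : (Q:ℝ) ^ (h+1) / (h+1) ≤ ∑ z ∈ Finset.range Q, ((z:ℝ) + 1) ^ h := by
    rw [div_le_iff₀ hh]; linarith
  linarith

theorem first_prob {V : Type*} [Fintype V] (N : Finset V) (a : V) (ha : a ∈ N) (k Q : ℕ)
    (hk : N.card ≤ k) (hQ : 0 < Q) :
    (1 / (k:ℝ) - 1 / (Q:ℝ)) * (Fintype.card (V → Fin Q) : ℝ)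
      ≤ cnt (fun x : V → Fin Q => ∀ a' ∈ N, a' ≠ a → x a < x a') := by
  have hN : 0 < N.card := Finset.card_pos.mpr ⟨a, ha⟩
  obtain ⟨h, hh⟩ : ∃ h, N.card = h + 1 := ⟨N.card - 1, by omega⟩
  set g : Fin Q → V → Fin Q → ℝ := fun y v z =>
    if v = a then (if z = y then 1 else 0) else if v ∈ N then (if y < z then 1 else 0) else 1 with hg
  obtain ⟨P, hP⟩ : ∃ P : (V → Fin Q) → Prop, ∀ x, P x ↔ ∀ a' ∈ N, a' ≠ a → x a < x a' :=
    ⟨fun x => ∀ a' ∈ N, a' ≠ a → x a < x a', fun x => Iff.rfl⟩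
  have hPeq : (fun x : V → Fin Q => ∀ a' ∈ N, a' ≠ a → x a < x a') = P := by
    funext x; exact (propext (hP x)).symm
  have hind : ∀ x : V → Fin Q, (if P x then (1:ℝ) else 0)
      = ∑ y : Fin Q, ∏ v, g y v (x v) := by
    intro x
    rw [Finset.sum_eq_single (x a)]
    · split_ifs with hx
      · rw [hP] at hx
        symm
        apply Finset.prod_eq_one
        intro v _
        simp only [hg]
        by_cases hv : v = a
        · simp [hv]
        · rw [if_neg hv]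
          by_cases hvN : v ∈ N
          · rw [if_pos hvN, if_pos (hx v hvN hv)]
          · rw [if_neg hvN]
      · rw [hP] at hx
        push Not at hx
        obtain ⟨v, hvN, hva, hle⟩ := hx
        symm
        apply Finset.prod_eq_zero (Finset.mem_univ v)
        simp only [hg]
        rw [if_neg hva, if_pos hvN, if_neg (not_lt.mpr hle)]
    · intro y _ hy
      apply Finset.prod_eq_zero (Finset.mem_univ a)
      simp only [hg, if_true]
      rw [if_neg (fun h => hy h.symm)]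
    · intro h; exact absurd (Finset.mem_univ _) h
  have hfac : ∀ y : Fin Q, ∏ v, ∑ z, g y v z
      = ((Q - 1 - (y:ℕ) : ℕ) : ℝ) ^ h * (Q:ℝ) ^ (Fintype.card V - (h+1)) := by
    intro y
    have hs : ∀ v, ∑ z, g y v z = if v = a then (1:ℝ) else if v ∈ N then ((Q - 1 - (y:ℕ) : ℕ) : ℝ) else (Q:ℝ) := by
      intro v
      simp only [hg]
      by_cases hv : v = a
      · simp [hv]
      · simp only [if_neg hv]
        by_cases hvN : v ∈ N
        · simp only [if_pos hvN]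
          rw [Finset.sum_ite, Finset.sum_const_zero, add_zero, Finset.sum_const, nsmul_eq_mul, mul_one]
          congr 1
          have : (Finset.univ.filter (fun z => y < z)) = Finset.Ioi y := by
            ext z; simp
          rw [this, Fin.card_Ioi]
        · simp [if_neg hvN]
    rw [Finset.prod_congr rfl (fun v _ => hs v)]
    rw [← Finset.prod_erase_mul _ _ (Finset.mem_univ a), if_pos rfl, mul_one]
    have e1 : ∏ v ∈ Finset.univ.erase a, (if v = a then (1:ℝ) else if v ∈ N then ((Q - 1 - (y:ℕ) : ℕ) : ℝ) else (Q:ℝ))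
        = ∏ v ∈ Finset.univ.erase a, (if v ∈ N then ((Q - 1 - (y:ℕ) : ℕ) : ℝ) else (Q:ℝ)) := by
      apply Finset.prod_congr rfl
      intro v hv
      rw [if_neg (Finset.ne_of_mem_erase hv)]
    rw [e1, Finset.prod_ite, Finset.prod_const, Finset.prod_const]
    congr 2
    · have : (Finset.univ.erase a).filter (fun v => v ∈ N) = N.erase a := by
        ext v; simp [and_comm]
      rw [this, Finset.card_erase_of_mem ha]; omega
    · have : (Finset.univ.erase a).filter (fun v => ¬ v ∈ N) = Finset.univ \ N := by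
        ext v
        simp only [Finset.mem_filter, Finset.mem_erase, Finset.mem_univ, and_true, Finset.mem_sdiff,
          true_and]
        constructor
        · intro h; exact h.2
        · intro h; exact ⟨fun hva => h (hva ▸ ha), h⟩
      rw [this, Finset.card_sdiff_of_subset (Finset.subset_univ _), Finset.card_univ, hh]
  have hcnt : cnt (fun x : V → Fin Q => ∀ a' ∈ N, a' ≠ a → x a < x a')
      = (∑ z ∈ Finset.range Q, (z:ℝ) ^ h) * (Q:ℝ) ^ (Fintype.card V - (h+1)) := by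
    rw [hPeq, cnt_eq_sum, Finset.sum_congr rfl (fun x _ => hind x), Finset.sum_comm]
    rw [Finset.sum_congr rfl (fun y _ => sum_pi_prod (g y)), Finset.sum_congr rfl (fun y _ => hfac y)]
    rw [← Finset.sum_mul]
    congr 1
    rw [← Finset.sum_range_reflect (fun z : ℕ => (z:ℝ) ^ h) Q]
    rw [← Fin.sum_univ_eq_sum_range (fun j : ℕ => ((Q - 1 - j : ℕ):ℝ) ^ h) Q]
  rw [hcnt]
  have hcardV : h + 1 ≤ Fintype.card V := by
    rw [← hh]; exact Finset.card_le_univ N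
  have hcardfun : (Fintype.card (V → Fin Q) : ℝ) = (Q:ℝ)^(h+1) * (Q:ℝ) ^ (Fintype.card V - (h+1)) := by
    rw [Fintype.card_fun, Fintype.card_fin, ← pow_add]
    push_cast
    congr 1
    omega
  rw [hcardfun, ← mul_assoc]
  apply mul_le_mul_of_nonneg_right _ (by positivity)
  refine le_trans ?_ (sum_pow_ge Q h)
  have hQ' : (0:ℝ) < Q := by exact_mod_cast hQ
  have hk' : ((h:ℝ) + 1) ≤ k := by
    have : h + 1 ≤ k := by omega
    exact_mod_cast this
  have hh0 : (0:ℝ) < (h:ℝ) + 1 := by positivity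
  have h1 : 1 / (k:ℝ) ≤ 1 / ((h:ℝ) + 1) := one_div_le_one_div_of_le hh0 hk'
  have h2 : (0:ℝ) ≤ (Q:ℝ)^(h+1) := by positivity
  have h3 : (1 / (Q:ℝ)) * (Q:ℝ)^(h+1) = (Q:ℝ)^h := by
    rw [pow_succ]; field_simp
  calc (1 / (k:ℝ) - 1 / (Q:ℝ)) * (Q:ℝ)^(h+1)
      = (1 / (k:ℝ)) * (Q:ℝ)^(h+1) - (1 / (Q:ℝ)) * (Q:ℝ)^(h+1) := by ring
    _ ≤ (1 / ((h:ℝ) + 1)) * (Q:ℝ)^(h+1) - (Q:ℝ)^h := by
        rw [h3]; nlinarith
    _ = (Q:ℝ) ^ (h+1) / (h+1) - (Q:ℝ) ^ h := by ring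

end Pool.Agent.MP_61eeb2_co
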