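import Mathlib
import Pool.Agent.Lib.MP_61eeb2_co.First
import Pool.Agent.Lib.MP_61eeb2_co.Assemble

/-!
The two random stages: random labels, then random choice of a phase for every edge.
-/

set_option autoImplicit false

namespace Pool.Agent.MP_61eeb2_co

open Finset Classical

/-- neighbours as a finset -/
noncomputable def nb {V : Type*} [Fintype V] (G : SimpleGraph V) (v : V) : Finset V :=
  Finset.univ.filter (fun w => G.Adj v w)

theorem mem_nb {V : Type*} [Fintype V] (G : SimpleGraph V) (v w : V) : w ∈ nb G v ↔ G.Adj v w := by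
  simp [nb]

theorem cnt_equiv {Ω Ω' : Type*} (e : Ω ≃ Ω') (P : Ω' → Prop) : cnt (fun ω => P (e ω)) = cnt P := by
  unfold cnt
  congr 1
  apply Set.ncard_congr (fun ω _ => e ω)
  · intro ω h; exact h
  · intro ω ω' _ _ h; exact e.injective h
  · intro ω' h; exact ⟨e.symm ω', by simpa using h, by simp⟩

theorem cnt_false {Ω : Type*} {P : Ω → Prop} (h : ∀ ω, ¬ P ω) : cnt P = 0 := by
  unfold cnt
  have : {ω | P ω} = ∅ := by
    ext ω; simp [h ω]
  rw [this]; simp

/-- `a` has the strictly smallest label in `N` -/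
def IsFirst {V Q : Type*} [LT Q] (N : Finset V) (a : V) (x : V → Q) : Prop :=
  ∀ a' ∈ N, a' ≠ a → x a < x a'

theorem stage1 {V : Type*} [Fintype V] (G : SimpleGraph V) (A : Set V)
    (hbip : ∀ u v, G.Adj u v → (u ∈ A ↔ v ∉ A)) (D k m Q s : ℕ)
    (hD : ∀ a ∈ A, (nb G a).card ≤ D) (hk : ∀ b, b ∉ A → (nb G b).card ≤ k) (hQ : 0 < Q)
    (t p : ℝ) (ht : 0 ≤ t) (hp0 : 0 ≤ p) (hp4 : p ≤ 1 / 4)
    (hexp : Real.exp (t * s - (m:ℝ) * ((1 / (k:ℝ) - 1 / (Q:ℝ)) * (1 - Real.exp (-t)))) ≤ p)
    (hl : 4 * p * ((k * (D * k) : ℕ) : ℝ) ≤ 1) :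
    ∃ ℓ : V → Fin m → Fin Q, ∀ a ∈ A, ∀ b, G.Adj a b →
      s ≤ (Finset.univ.filter (fun j => ∀ a', G.Adj a' b → a' ≠ a → ℓ a j < ℓ a' j)).card := by
  have : Nonempty (Fin m → Fin Q) := ⟨fun _ => ⟨0, hQ⟩⟩
  set vbl : V × V → Finset V := fun e => if G.Adj e.1 e.2 ∧ e.1 ∈ A then nb G e.2 else ∅ with hvbl
  set bad : V × V → (V → (Fin m → Fin Q)) → Prop := fun e ω =>
    (G.Adj e.1 e.2 ∧ e.1 ∈ A) ∧
      (Finset.univ.filter (fun j => IsFirst (nb G e.2) e.1 (fun v => ω v j))).card < s with hbad
  have main := lll (ι := V) (κ := Fin m → Fin Q) (E := V × V) vbl bad ?_ p (k * (D * k)) hp0 hp4 ?_ ?_ hl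
  · obtain ⟨ω, hω⟩ := main
    refine ⟨ω, fun a ha b hab => ?_⟩
    have := hω (a, b)
    simp only [hbad, not_and, not_lt] at this
    have h1 := this ⟨hab, ha⟩
    refine le_trans h1 (Finset.card_le_card ?_)
    intro j hj
    rw [Finset.mem_filter] at hj ⊢
    refine ⟨hj.1, fun a' ha' hne => hj.2 a' ?_ hne⟩
    rw [mem_nb]; exact ha'.symm
  · -- dependence
    rintro ⟨a, b⟩ ω ω' hω ⟨⟨hab, ha⟩, hc⟩
    simp only at hab ha hc
    refine ⟨⟨hab, ha⟩, ?_⟩
    have hv : vbl (a, b) = nb G b := by simp only [hvbl]; rw [if_pos ⟨hab, ha⟩]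
    rw [hv] at hω
    simp only
    have hfe : (Finset.univ.filter (fun j => IsFirst (nb G b) a (fun v => ω' v j)))
        = (Finset.univ.filter (fun j => IsFirst (nb G b) a (fun v => ω v j))) := by
      apply Finset.filter_congr
      intro j _
      unfold IsFirst
      apply forall_congr'; intro a'
      apply imp_congr_right; intro ha'
      show a' ≠ a → ω' a j < ω' a' j ↔ a' ≠ a → ω a j < ω a' j
      rw [hω a ((mem_nb G b a).mpr hab.symm), hω a' ha']
    rw [hfe]
    exact hc
  · -- probability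
    rintro ⟨a, b⟩
    by_cases hab : G.Adj a b ∧ a ∈ A
    · have e0 : cnt (bad (a, b)) = cnt (fun ω : V → (Fin m → Fin Q) =>
          (Finset.univ.filter (fun j => IsFirst (nb G b) a (fun v => ω v j))).card < s) := by
        congr 1; funext ω
        simp only [hbad]
        exact propext ⟨fun h => h.2, fun h => ⟨hab, h⟩⟩
      have e1 := cnt_equiv (Equiv.piComm (fun (_ : V) (_ : Fin m) => Fin Q))
        (fun c : Fin m → V → Fin Q =>
          (Finset.univ.filter (fun j => IsFirst (nb G b) a (c j))).card < s)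
      have e2 := cnt_equiv (Equiv.piComm (fun (_ : V) (_ : Fin m) => Fin Q))
        (fun _ : Fin m → V → Fin Q => True)
      have hI := first_prob (nb G b) a ((mem_nb G b a).mpr hab.1.symm) k Q
        (hk b ((hbip a b hab.1).mp hab.2)) hQ
      have h3 := chernoff_lower (ι := Fin m) (X := V → Fin Q)
        (IsFirst (nb G b) a) (1 / (k:ℝ) - 1 / (Q:ℝ)) hI t ht s
      rw [e0]
      calc cnt (fun ω : V → (Fin m → Fin Q) =>
            (Finset.univ.filter (fun j => IsFirst (nb G b) a (fun v => ω v j))).card < s)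
          = cnt (fun c : Fin m → V → Fin Q =>
            (Finset.univ.filter (fun j => IsFirst (nb G b) a (c j))).card < s) := e1
        _ ≤ _ := h3
        _ ≤ p * cnt (fun _ : Fin m → V → Fin Q => True) := by
            apply mul_le_mul_of_nonneg_right _ (cnt_nonneg _)
            rw [Fintype.card_fin]
            exact hexp
        _ = p * cnt (fun _ : V → (Fin m → Fin Q) => True) := by rw [← e2]
    · rw [cnt_false (fun ω h => hab h.1)]
      exact mul_nonneg hp0 (cnt_nonneg _)
  · -- dependency count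
    rintro ⟨a, b⟩
    by_cases hab : G.Adj a b ∧ a ∈ A
    · have hv : vbl (a, b) = nb G b := by simp only [hvbl]; rw [if_pos hab]
      have hbA : b ∉ A := (hbip a b hab.1).mp hab.2
      have hsub : (Finset.univ.filter (fun f => ¬ Disjoint (vbl (a, b)) (vbl f)))
          ⊆ (nb G b).biUnion (fun x => (nb G x).biUnion (fun b' => (nb G b').image (fun a' => (a', b')))) := by
        rintro ⟨a', b'⟩ hf
        rw [Finset.mem_filter] at hf
        have hnd := hf.2
        by_cases hab' : G.Adj a' b' ∧ a' ∈ A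
        · have hv' : vbl (a', b') = nb G b' := by simp only [hvbl]; rw [if_pos hab']
          rw [hv, hv', Finset.not_disjoint_iff] at hnd
          obtain ⟨x, hx1, hx2⟩ := hnd
          rw [Finset.mem_biUnion]
          refine ⟨x, hx1, ?_⟩
          rw [Finset.mem_biUnion]
          rw [mem_nb] at hx2
          refine ⟨b', (mem_nb G x b').mpr hx2.symm, ?_⟩
          rw [Finset.mem_image]
          exact ⟨a', (mem_nb G b' a').mpr hab'.1.symm, rfl⟩
        · exfalso
          apply hnd
          have : vbl (a', b') = ∅ := by simp only [hvbl]; rw [if_neg hab']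
          rw [this]; exact Finset.disjoint_empty_right _
      refine le_trans (Finset.card_le_card hsub) ?_
      refine le_trans (Finset.card_biUnion_le_card_mul _ _ (D * k) ?_) ?_
      · intro x hx
        have hxA : x ∈ A := by
          rw [mem_nb] at hx
          exact (hbip x b hx.symm).mpr hbA
        refine le_trans (Finset.card_biUnion_le_card_mul _ _ k ?_) ?_
        · intro b' hb'
          have hb'A : b' ∉ A := by
            rw [mem_nb] at hb'
            exact (hbip x b' hb').mp hxA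
          exact le_trans Finset.card_image_le (hk b' hb'A)
        · exact Nat.mul_le_mul_right k (hD x hxA)
      · exact Nat.mul_le_mul_right _ (hk b hbA)
    · have hv : vbl (a, b) = ∅ := by simp only [hvbl]; rw [if_neg hab]
      rw [hv]
      simp

theorem cnt_coord {V : Type*} [Fintype V] (s : ℕ) (a : V) (i : Fin s) :
    cnt (fun y : V → Fin s => y a = i) * s = (Fintype.card (V → Fin s) : ℝ) := by
  have h1 : cnt (fun y : V → Fin s => y a = i)
      = ∏ v : V, ∑ z : Fin s, (if v = a then (if z = i then (1:ℝ) else 0) else 1) := by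
    rw [cnt_eq_sum, ← sum_pi_prod (fun (v : V) (z : Fin s) => if v = a then (if z = i then (1:ℝ) else 0) else 1)]
    apply Finset.sum_congr rfl
    intro y _
    split_ifs with h
    · symm
      apply Finset.prod_eq_one
      intro v _
      by_cases hv : v = a
      · subst hv; simp [h]
      · simp [hv]
    · symm
      apply Finset.prod_eq_zero (Finset.mem_univ a)
      simp [h]
  have h2 : ∀ v : V, ∑ z : Fin s, (if v = a then (if z = i then (1:ℝ) else 0) else 1)
      = if v = a then 1 else (s:ℝ) := by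
    intro v
    by_cases hv : v = a
    · simp [hv]
    · simp [hv]
  rw [h1, Finset.prod_congr rfl (fun v _ => h2 v), ← Finset.prod_erase_mul _ _ (Finset.mem_univ a),
    if_pos rfl, mul_one]
  have h3 : ∏ v ∈ Finset.univ.erase a, (if v = a then (1:ℝ) else (s:ℝ)) = (s:ℝ) ^ (Fintype.card V - 1) := by
    rw [Finset.prod_congr rfl (fun v hv => if_neg (Finset.ne_of_mem_erase hv)), Finset.prod_const,
      Finset.card_erase_of_mem (Finset.mem_univ a), Finset.card_univ]
  rw [h3, ← pow_succ, Fintype.card_fun, Fintype.card_fin]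
  have hpos : 0 < Fintype.card V := Fintype.card_pos_iff.mpr ⟨a⟩
  push_cast
  congr 1
  omega

/-- the vertex `b` is active in phase `j` for the choices `y` -/
def Act {V : Type*} (G : SimpleGraph V) {m s : ℕ} (ι : V → V → Fin s → Fin m) (j : Fin m) (b : V)
    (y : V → Fin s) : Prop := ∃ a', G.Adj a' b ∧ ι a' b (y a') = j

theorem stage2 {V : Type*} [Fintype V] (G : SimpleGraph V) (A : Set V)
    (hbip : ∀ u v, G.Adj u v → (u ∈ A ↔ v ∉ A)) (D k m s d : ℕ)
    (hD : ∀ a ∈ A, (nb G a).card ≤ D) (hk : ∀ b, b ∉ A → (nb G b).card ≤ k) (hs : 0 < s)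
    (ι : V → V → Fin s → Fin m)
    (hinj : ∀ a ∈ A, ∀ b, G.Adj a b → Function.Injective (ι a b))
    (hdisj : ∀ a ∈ A, ∀ a' ∈ A, ∀ b, G.Adj a b → G.Adj a' b → a ≠ a' → ∀ i i', ι a b i ≠ ι a' b i')
    (t p : ℝ) (ht : 0 ≤ t) (hp0 : 0 ≤ p) (hp4 : p ≤ 1 / 4)
    (hexp : Real.exp (- t * ((d + 1 : ℕ) : ℝ) + (D : ℝ) * ((1 / (s:ℝ)) * (Real.exp t - 1))) ≤ p)
    (hl : 4 * p * ((D * (k * m) : ℕ) : ℝ) ≤ 1) :
    ∃ c : V → V → Fin s, ∀ a ∈ A, ∀ j, (Finset.univ.filter
      (fun b => G.Adj a b ∧ ∃ a', G.Adj a' b ∧ ι a' b (c b a') = j)).card ≤ d := by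
  have : Nonempty (V → Fin s) := ⟨fun _ => ⟨0, hs⟩⟩
  have hs' : (0:ℝ) < s := by exact_mod_cast hs
  set vbl : V × Fin m → Finset V := fun e => if e.1 ∈ A then nb G e.1 else ∅ with hvbl
  set bad : V × Fin m → (V → (V → Fin s)) → Prop := fun e c =>
    e.1 ∈ A ∧ (d + 1 ≤ ((nb G e.1).filter (fun b => Act G ι e.2 b (c b))).card) with hbad
  have main := lll (ι := V) (κ := V → Fin s) (E := V × Fin m) vbl bad ?_ p (D * (k * m)) hp0 hp4 ?_ ?_ hl
  · obtain ⟨c, hc⟩ := main
    refine ⟨c, fun a ha j => ?_⟩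
    have := hc (a, j)
    simp only [hbad, not_and, not_le] at this
    have h1 := this ha
    have h2 : (Finset.univ.filter
      (fun b => G.Adj a b ∧ ∃ a', G.Adj a' b ∧ ι a' b (c b a') = j)).card
        ≤ ((nb G a).filter (fun b => Act G ι j b (c b))).card := by
      apply Finset.card_le_card
      intro b hb
      rw [Finset.mem_filter] at hb ⊢
      exact ⟨(mem_nb G a b).mpr hb.2.1, hb.2.2⟩
    omega
  · rintro ⟨a, j⟩ c c' hω ⟨ha, hc⟩
    simp only at ha hc
    refine ⟨ha, ?_⟩
    have hv : vbl (a, j) = nb G a := by simp only [hvbl]; rw [if_pos ha]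
    rw [hv] at hω
    simp only
    have hfe : ((nb G a).filter (fun b => Act G ι j b (c' b)))
        = ((nb G a).filter (fun b => Act G ι j b (c b))) := by
      apply Finset.filter_congr
      intro b hb
      rw [hω b hb]
    rw [hfe]
    exact hc
  · rintro ⟨a, j⟩
    by_cases ha : a ∈ A
    · have e0 : cnt (bad (a, j)) = cnt (fun c : V → (V → Fin s) =>
          d + 1 ≤ ((nb G a).filter (fun b => Act G ι j b (c b))).card) := by
        congr 1; funext c
        simp only [hbad]
        exact propext ⟨fun h => h.2, fun h => ⟨ha, h⟩⟩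
      have hq : ∀ b ∈ nb G a, cnt (Act G ι j b) ≤ (1 / (s:ℝ)) * (Fintype.card (V → Fin s) : ℝ) := by
        intro b hb
        have hab := (mem_nb G a b).mp hb
        have hbA : b ∉ A := (hbip a b hab).mp ha
        by_cases hex : ∃ a' i, G.Adj a' b ∧ ι a' b i = j
        · obtain ⟨a', i, ha'b, hi⟩ := hex
          have ha'A : a' ∈ A := (hbip a' b ha'b).mpr hbA
          have h1 : cnt (Act G ι j b) ≤ cnt (fun y : V → Fin s => y a' = i) := by
            apply cnt_mono
            rintro y ⟨a'', ha''b, hy⟩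
            have ha''A : a'' ∈ A := (hbip a'' b ha''b).mpr hbA
            have haa : a'' = a' := by
              by_contra hne
              exact hdisj a'' ha''A a' ha'A b ha''b ha'b hne _ _ (hy.trans hi.symm)
            subst haa
            exact hinj a'' ha'A b ha'b (hy.trans hi.symm)
          refine le_trans h1 ?_
          rw [← cnt_coord s a' i]
          have : (1 / (s:ℝ)) * (cnt (fun y : V → Fin s => y a' = i) * s)
              = cnt (fun y : V → Fin s => y a' = i) := by field_simp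
          rw [this]
        · rw [cnt_false (fun y hy => hex (by
            obtain ⟨a', h1, h2⟩ := hy
            exact ⟨a', _, h1, h2⟩))]
          positivity
      have h3 := chernoff_upper (nb G a) (fun b => Act G ι j b) (1 / (s:ℝ)) hq t ht (d + 1)
      rw [e0]
      refine le_trans h3 ?_
      apply mul_le_mul_of_nonneg_right _ (cnt_nonneg _)
      refine le_trans (Real.exp_le_exp.mpr ?_) hexp
      have h4 : ((nb G a).card : ℝ) ≤ D := by exact_mod_cast hD a ha
      have h5 : 0 ≤ (1 / (s:ℝ)) * (Real.exp t - 1) := by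
        have := Real.one_le_exp ht
        apply mul_nonneg (by positivity) (by linarith)
      nlinarith
    · rw [cnt_false (fun c h => ha h.1)]
      exact mul_nonneg hp0 (cnt_nonneg _)
  · rintro ⟨a, j⟩
    by_cases ha : a ∈ A
    · have hv : vbl (a, j) = nb G a := by simp only [hvbl]; rw [if_pos ha]
      have hsub : (Finset.univ.filter (fun f => ¬ Disjoint (vbl (a, j)) (vbl f)))
          ⊆ (nb G a).biUnion (fun b => (nb G b).biUnion
            (fun a' => (Finset.univ : Finset (Fin m)).image (fun j' => (a', j')))) := by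
        rintro ⟨a', j'⟩ hf
        rw [Finset.mem_filter] at hf
        have hnd := hf.2
        by_cases ha' : a' ∈ A
        · have hv' : vbl (a', j') = nb G a' := by simp only [hvbl]; rw [if_pos ha']
          rw [hv, hv', Finset.not_disjoint_iff] at hnd
          obtain ⟨b, hb1, hb2⟩ := hnd
          rw [Finset.mem_biUnion]
          refine ⟨b, hb1, ?_⟩
          rw [Finset.mem_biUnion]
          rw [mem_nb] at hb2
          refine ⟨a', (mem_nb G b a').mpr hb2.symm, ?_⟩
          rw [Finset.mem_image]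
          exact ⟨j', Finset.mem_univ _, rfl⟩
        · exfalso
          apply hnd
          have : vbl (a', j') = ∅ := by simp only [hvbl]; rw [if_neg ha']
          rw [this]; exact Finset.disjoint_empty_right _
      refine le_trans (Finset.card_le_card hsub) ?_
      refine le_trans (Finset.card_biUnion_le_card_mul _ _ (k * m) ?_) ?_
      · intro b hb
        have hbA : b ∉ A := by
          rw [mem_nb] at hb
          exact (hbip a b hb).mp ha
        refine le_trans (Finset.card_biUnion_le_card_mul _ _ m ?_) ?_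
        · intro a' _
          refine le_trans Finset.card_image_le ?_
          simp
        · exact Nat.mul_le_mul_right m (hk b hbA)
      · exact Nat.mul_le_mul_right _ (hD a ha)
    · have hv : vbl (a, j) = ∅ := by simp only [hvbl]; rw [if_neg ha]
      rw [hv]
      simp

/-- The two stages together, with all numerical requirements as hypotheses. -/
theorem strong_of_numbers {V : Type*} [Fintype V] (G : SimpleGraph V) (A : Set V)
    (hbip : ∀ u v, G.Adj u v → (u ∈ A ↔ v ∉ A)) (D k m Q s d : ℕ)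
    (hD : ∀ a ∈ A, (nb G a).card ≤ D) (hk : ∀ b, b ∉ A → (nb G b).card ≤ k)
    (hQ : 0 < Q) (hs : 0 < s) (hm : 0 < m) (t p : ℝ) (ht : 0 ≤ t) (hp0 : 0 ≤ p) (hp4 : p ≤ 1 / 4)
    (hexp1 : Real.exp (t * s - (m:ℝ) * ((1 / (k:ℝ) - 1 / (Q:ℝ)) * (1 - Real.exp (-t)))) ≤ p)
    (hexp2 : Real.exp (- t * ((d + 1 : ℕ) : ℝ) + (D : ℝ) * ((1 / (s:ℝ)) * (Real.exp t - 1))) ≤ p)
    (hl1 : 4 * p * ((k * (D * k) : ℕ) : ℝ) ≤ 1) (hl2 : 4 * p * ((D * (k * m) : ℕ) : ℝ) ≤ 1) :
    ∃ col : Sym2 V → ℕ,
      (∀ a b, G.Adj a b → col s(a, b) < m * d) ∧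
      (∀ a b c d, G.Adj a b → G.Adj c d → s(a, b) ≠ s(c, d) →
        (b = c ∨ G.Adj b c) → col s(a, b) ≠ col s(c, d)) := by
  obtain ⟨ℓ, hℓ⟩ := stage1 G A hbip D k m Q s hD hk hQ t p ht hp0 hp4 hexp1 hl1
  -- choose the injections
  have hch : ∀ a b, ∃ f : Fin s → Fin m, (a ∈ A → G.Adj a b →
      Function.Injective f ∧ ∀ i, ∀ a', G.Adj a' b → a' ≠ a → ℓ a (f i) < ℓ a' (f i)) := by
    intro a b
    by_cases h : a ∈ A ∧ G.Adj a b
    · have h1 := hℓ a h.1 b h.2
      obtain ⟨T, hT1, hT2⟩ := Finset.exists_subset_card_eq h1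
      refine ⟨fun i => T.orderEmbOfFin hT2 i, fun _ _ => ⟨fun i i' hii => by simpa using hii, fun i a' ha' hne => ?_⟩⟩
      have hmem : T.orderEmbOfFin hT2 i ∈ T := Finset.orderEmbOfFin_mem T hT2 i
      have := hT1 hmem
      rw [Finset.mem_filter] at this
      exact this.2 a' ha' hne
    · exact ⟨fun _ => ⟨0, hm⟩, fun h1 h2 => absurd ⟨h1, h2⟩ h⟩
  choose ι hι using hch
  obtain ⟨c, hc⟩ := stage2 G A hbip D k m s d hD hk hs ι
    (fun a ha b hab => (hι a b ha hab).1)
    (fun a ha a' ha' b hab ha'b hne i i' heq => by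
      have h1 := (hι a b ha hab).2 i a' ha'b (fun h => hne h.symm)
      have h2 := (hι a' b ha' ha'b).2 i' a hab hne
      rw [heq] at h1
      exact absurd h1 (not_lt.mpr h2.le))
    t p ht hp0 hp4 hexp2 hl2
  apply strong_of_phases G A hbip m d (fun j v => (ℓ v j : ℕ)) (fun a b => ι a b (c b a))
  · intro a ha b hab a' ha' hne
    exact (hι a b ha hab).2 (c b a) a' ha' hne
  · intro a ha j
    exact hc a ha j

end Pool.Agent.MP_61eeb2_co
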