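import Mathlib
import Pool.Agent.Lib.MP_61eeb2_co.Stages

/-!
Choice of the parameters.
-/

set_option autoImplicit false

namespace Pool.Agent.MP_61eeb2_co

open Finset Classical Filter

theorem exists_R0 (η : ℝ) (hη : 0 < η) : ∃ R0 : ℕ, ∀ r : ℕ, R0 ≤ r →
    4 * ((r:ℝ) + 1) ^ 8 * Real.exp (-(η ^ 2 * r)) ≤ 1 ∧ 1 ≤ η * r := by
  have h1 : Tendsto (fun x : ℝ => x ^ 8 * Real.exp (-x)) atTop (nhds 0) :=
    Real.tendsto_pow_mul_exp_neg_atTop_nhds_zero 8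
  have h2 : Tendsto (fun r : ℕ => η ^ 2 * ((r:ℝ) + 1)) atTop atTop := by
    apply Tendsto.const_mul_atTop (by positivity)
    exact tendsto_atTop_add_const_right _ _ tendsto_natCast_atTop_atTop
  have h3 := h1.comp h2
  have hpos : 0 < (η ^ 2) ^ 8 / (4 * Real.exp (η ^ 2)) := by positivity
  have h4 := h3.eventually (gt_mem_nhds hpos)
  have h5 : ∀ᶠ r : ℕ in atTop, 1 ≤ η * r := by
    have : Tendsto (fun r : ℕ => η * (r:ℝ)) atTop atTop :=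
      Tendsto.const_mul_atTop hη tendsto_natCast_atTop_atTop
    exact this.eventually_ge_atTop 1
  obtain ⟨R0, hR0⟩ := eventually_atTop.mp (h4.and h5)
  refine ⟨R0, fun r hr => ?_⟩
  obtain ⟨h6, h7⟩ := hR0 r hr
  refine ⟨?_, h7⟩
  simp only [Function.comp_apply] at h6
  have e1 : Real.exp (-(η ^ 2 * ((r:ℝ) + 1))) = Real.exp (-(η ^ 2 * r)) * Real.exp (-(η^2)) := by
    rw [← Real.exp_add]; congr 1; ring
  rw [e1, mul_pow, lt_div_iff₀ (by positivity)] at h6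
  have e2 : Real.exp (-(η^2)) * Real.exp (η^2) = 1 := by
    rw [← Real.exp_add]; simp
  have hη8 : 0 < (η ^ 2) ^ 8 := by positivity
  have h8 : (η ^ 2) ^ 8 * (4 * ((r:ℝ) + 1) ^ 8 * Real.exp (-(η ^ 2 * r))) < (η ^ 2) ^ 8 * 1 := by
    calc (η ^ 2) ^ 8 * (4 * ((r:ℝ) + 1) ^ 8 * Real.exp (-(η ^ 2 * r)))
        = (η ^ 2) ^ 8 * ((r:ℝ) + 1) ^ 8 * (Real.exp (-(η ^ 2 * r)) * (Real.exp (-(η^2)) * Real.exp (η^2))) * 4 := by
          rw [e2]; ring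
      _ = (η ^ 2) ^ 8 * ((r:ℝ) + 1) ^ 8 * (Real.exp (-(η ^ 2 * r)) * Real.exp (-(η^2))) * (4 * Real.exp (η^2)) := by ring
      _ < (η ^ 2) ^ 8 * 1 := by rw [mul_one]; exact h6
  exact (lt_of_mul_lt_mul_left h8 hη8.le).le

set_option maxHeartbeats 2000000 in
theorem asymptotic_aux (ε : ℝ) (hε : 0 < ε) : ∃ D0 : ℕ, ∀ (V : Type) [Fintype V] (G : SimpleGraph V)
    (A : Set V) (D k : ℕ), (∀ u v, G.Adj u v → (u ∈ A ↔ v ∉ A)) →
    (∀ a ∈ A, (nb G a).card ≤ D) → (∀ b, b ∉ A → (nb G b).card ≤ k) → 0 < k → k ≤ D → D0 ≤ D →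
    ∃ col : Sym2 V → ℕ,
      (∀ a b, G.Adj a b → (col s(a, b) : ℝ) < (1 + ε) * ((D:ℝ) * k)) ∧
      (∀ a b c d, G.Adj a b → G.Adj c d → s(a, b) ≠ s(c, d) →
        (b = c ∨ G.Adj b c) → col s(a, b) ≠ col s(c, d)) := by
  set η : ℝ := min (ε / 10) (1 / 20) with hη
  have hη0 : 0 < η := by rw [hη]; positivity
  have hη1 : η ≤ 1 / 20 := min_le_right _ _
  have hη2 : η ≤ ε / 10 := min_le_left _ _
  obtain ⟨R0, hR0⟩ := exists_R0 η hη0
  refine ⟨R0 ^ 2, ?_⟩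
  intro V _ G A D k hbip hD hk hk0 hkD hD0
  set r := Nat.sqrt D with hr
  have hrR : R0 ≤ r := by
    rw [hr]; exact Nat.le_sqrt'.mpr hD0
  obtain ⟨hbig, hηr⟩ := hR0 r hrR
  have hrD : r * r ≤ D := Nat.sqrt_le D
  have hDr : D < (r + 1) * (r + 1) := Nat.lt_succ_sqrt D
  have hD0' : 0 < D := lt_of_lt_of_le hk0 hkD
  -- real versions
  have hk0' : (0:ℝ) < k := by exact_mod_cast hk0
  have hDpos : (0:ℝ) < D := by exact_mod_cast hD0'
  have hrDr : (r:ℝ) * r ≤ D := by exact_mod_cast hrD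
  have hDrr : (D:ℝ) ≤ ((r:ℝ) + 1) ^ 2 := by
    have : (D:ℝ) < ((r:ℝ) + 1) * ((r:ℝ) + 1) := by exact_mod_cast hDr
    nlinarith
  have hr0 : (0:ℝ) < r := by
    by_contra h
    have : (r:ℝ) ≤ 0 := not_lt.mp h
    nlinarith
  have hr0n : 0 < r := by exact_mod_cast hr0
  have hkDr : (k:ℝ) ≤ D := by exact_mod_cast hkD
  -- parameters
  obtain ⟨q, hq⟩ := exists_nat_ge (1 / η)
  have hq0 : (0:ℝ) < q := lt_of_lt_of_le (by positivity) hq
  have hq0n : 0 < q := by exact_mod_cast hq0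
  have hqη : 1 / (q:ℝ) ≤ η := by
    rw [div_le_iff₀ hq0]
    rw [div_le_iff₀ hη0] at hq
    linarith
  set s := ⌊(1 - 3 * η) * r⌋₊ with hs
  have hs1 : (s:ℝ) ≤ (1 - 3 * η) * r := by
    rw [hs]; apply Nat.floor_le; nlinarith
  have hs2 : (1 - 4 * η) * r ≤ s := by
    have := Nat.sub_one_lt_floor ((1 - 3 * η) * (r:ℝ))
    rw [← hs] at this
    nlinarith
  have hspos : (0:ℝ) < s := by nlinarith
  have hsposn : 0 < s := by exact_mod_cast hspos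
  have hsr : (s:ℝ) ≤ r := by nlinarith
  set d := ⌈(1 + 2 * η) * D / s⌉₊ with hd
  have hd1 : (1 + 2 * η) * D / s ≤ d := by rw [hd]; exact Nat.le_ceil _
  have hd2 : (d:ℝ) < (1 + 2 * η) * D / s + 1 := by
    rw [hd]; apply Nat.ceil_lt_add_one; positivity
  have hexpη : |Real.exp (-η) - 1 - (-η)| ≤ (-η) ^ 2 := by
    apply Real.abs_exp_sub_one_sub_id_le
    rw [abs_neg, abs_of_pos hη0]; linarith
  have hexpη' : |Real.exp η - 1 - η| ≤ η ^ 2 := by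
    apply Real.abs_exp_sub_one_sub_id_le
    rw [abs_of_pos hη0]; linarith
  have hE1 : η - η ^ 2 ≤ 1 - Real.exp (-η) := by
    have := (abs_le.mp hexpη).2
    nlinarith
  have hE2 : Real.exp η - 1 ≤ η + η ^ 2 := by
    have := (abs_le.mp hexpη').2
    linarith
  have hDs : (r:ℝ) ≤ D / s := by
    rw [le_div_iff₀ hspos]; nlinarith
  have hpnn : 0 ≤ Real.exp (-(η ^ 2 * r)) := (Real.exp_pos _).le
  have hr1 : (1:ℝ) ≤ (r:ℝ) + 1 := by linarith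
  have hX1 : (1:ℝ) ≤ ((r:ℝ) + 1) ^ 8 := one_le_pow₀ hr1
  have hp4 : Real.exp (-(η ^ 2 * r)) ≤ 1 / 4 := by
    have h1 : Real.exp (-(η ^ 2 * r)) ≤ ((r:ℝ) + 1) ^ 8 * Real.exp (-(η ^ 2 * r)) :=
      le_mul_of_one_le_left hpnn hX1
    have h2 : 4 * ((r:ℝ) + 1) ^ 8 * Real.exp (-(η ^ 2 * r))
        = 4 * (((r:ℝ) + 1) ^ 8 * Real.exp (-(η ^ 2 * r))) := by ring
    rw [h2] at hbig
    linarith
  have hD3r : (k:ℝ) * (D * k) ≤ ((r:ℝ) + 1) ^ 8 := by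
    have h1 : (k:ℝ) * (D * k) ≤ D * (D * D) := by
      apply mul_le_mul hkDr _ (by positivity) hDpos.le
      exact mul_le_mul_of_nonneg_left hkDr hDpos.le
    have h2 : (D:ℝ) * (D * D) ≤ ((r:ℝ) + 1) ^ 6 := by
      calc (D:ℝ) * (D * D) = D ^ 3 := by ring
        _ ≤ (((r:ℝ) + 1) ^ 2) ^ 3 := by gcongr
        _ = ((r:ℝ) + 1) ^ 6 := by ring
    have h3 : ((r:ℝ) + 1) ^ 6 ≤ ((r:ℝ) + 1) ^ 8 := pow_le_pow_right₀ hr1 (by norm_num)
    linarith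
  have hD4r : (D:ℝ) * (k * (k * r)) ≤ ((r:ℝ) + 1) ^ 8 := by
    have hrD' : (r:ℝ) ≤ (r:ℝ) + 1 := by linarith
    have h1 : (k:ℝ) * (k * r) ≤ D * (D * ((r:ℝ) + 1)) := by
      apply mul_le_mul hkDr _ (by positivity) hDpos.le
      exact mul_le_mul hkDr hrD' hr0.le hDpos.le
    have h2 : (D:ℝ) * (D * (D * ((r:ℝ) + 1))) ≤ ((r:ℝ) + 1) ^ 7 := by
      calc (D:ℝ) * (D * (D * ((r:ℝ) + 1))) = D ^ 3 * ((r:ℝ) + 1) := by ring
        _ ≤ (((r:ℝ) + 1) ^ 2) ^ 3 * ((r:ℝ) + 1) := by gcongr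
        _ = ((r:ℝ) + 1) ^ 7 := by ring
    have h3 : ((r:ℝ) + 1) ^ 7 ≤ ((r:ℝ) + 1) ^ 8 := pow_le_pow_right₀ hr1 (by norm_num)
    have h4 : (D:ℝ) * (k * (k * r)) ≤ (D:ℝ) * (D * (D * ((r:ℝ) + 1))) :=
      mul_le_mul_of_nonneg_left h1 hDpos.le
    linarith
  have hN1 : Real.exp (η * s - ((k * r : ℕ):ℝ) * ((1 / (k:ℝ) - 1 / ((k * q : ℕ):ℝ)) * (1 - Real.exp (-η))))
      ≤ Real.exp (-(η ^ 2 * r)) := by
    apply Real.exp_le_exp.mpr
    push_cast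
    have e1 : (k:ℝ) * r * ((1 / (k:ℝ) - 1 / ((k:ℝ) * q)) * (1 - Real.exp (-η)))
        = r * (1 - 1 / (q:ℝ)) * (1 - Real.exp (-η)) := by
      field_simp
    rw [e1]
    have hηη : 0 ≤ η - η ^ 2 := by
      have e0 : η - η ^ 2 = η * (1 - η) := by ring
      rw [e0]; exact mul_nonneg hη0.le (by linarith)
    have e2 : (r:ℝ) * (1 - η) * (η - η ^ 2) ≤ r * (1 - 1 / (q:ℝ)) * (1 - Real.exp (-η)) := by
      apply mul_le_mul _ hE1 hηη
      · apply mul_nonneg hr0.le; linarith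
      · apply mul_le_mul_of_nonneg_left _ hr0.le
        linarith
    have e3 : η * (s:ℝ) ≤ η * ((1 - 3 * η) * r) := mul_le_mul_of_nonneg_left hs1 hη0.le
    have e4 : 0 < η ^ 3 * r := by positivity
    have e5 : η * ((1 - 3 * η) * r) - (r:ℝ) * (1 - η) * (η - η ^ 2) = -(η ^ 2 * r) - η ^ 3 * r := by
      ring
    linarith
  have hN2 : Real.exp (- η * ((d + 1 : ℕ) : ℝ) + (D : ℝ) * ((1 / (s:ℝ)) * (Real.exp η - 1)))
      ≤ Real.exp (-(η ^ 2 * r)) := by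
    apply Real.exp_le_exp.mpr
    push_cast
    have e1 : (D:ℝ) * (1 / (s:ℝ) * (Real.exp η - 1)) ≤ (D / s) * (η + η ^ 2) := by
      have : (D:ℝ) * (1 / (s:ℝ) * (Real.exp η - 1)) = (D / s) * (Real.exp η - 1) := by ring
      rw [this]
      apply mul_le_mul_of_nonneg_left hE2; positivity
    have e2 : (1 + 2 * η) * (D / s) ≤ d := by
      rw [← mul_div_assoc]; exact hd1
    have e3 : η ^ 2 * r ≤ η ^ 2 * (D / s) := mul_le_mul_of_nonneg_left hDs (by positivity)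
    have e4 : η * ((1 + 2 * η) * (D / s)) ≤ η * d := mul_le_mul_of_nonneg_left e2 hη0.le
    have e5 : η * ((1 + 2 * η) * (D / s)) = η * (D / s) + 2 * (η ^ 2 * (D / s)) := by ring
    have e6 : ((D:ℝ) / s) * (η + η ^ 2) = η * (D / s) + η ^ 2 * (D / s) := by ring
    have e7 : - η * ((d:ℝ) + 1) = - (η * d) - η := by ring
    rw [e7]
    linarith
  have hN3 : 4 * Real.exp (-(η ^ 2 * r)) * ((k * (D * k) : ℕ) : ℝ) ≤ 1 := by
    push_cast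
    calc 4 * Real.exp (-(η ^ 2 * r)) * ((k:ℝ) * (D * k))
        ≤ 4 * Real.exp (-(η ^ 2 * r)) * ((r:ℝ) + 1) ^ 8 :=
          mul_le_mul_of_nonneg_left hD3r (by positivity)
      _ = 4 * ((r:ℝ) + 1) ^ 8 * Real.exp (-(η ^ 2 * r)) := by ring
      _ ≤ 1 := hbig
  have hN4 : 4 * Real.exp (-(η ^ 2 * r)) * ((D * (k * (k * r)) : ℕ) : ℝ) ≤ 1 := by
    push_cast
    calc 4 * Real.exp (-(η ^ 2 * r)) * ((D:ℝ) * (k * (k * r)))
        ≤ 4 * Real.exp (-(η ^ 2 * r)) * ((r:ℝ) + 1) ^ 8 :=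
          mul_le_mul_of_nonneg_left hD4r (by positivity)
      _ = 4 * ((r:ℝ) + 1) ^ 8 * Real.exp (-(η ^ 2 * r)) := by ring
      _ ≤ 1 := hbig
  obtain ⟨col, hcol1, hcol2⟩ := strong_of_numbers G A hbip D k (k * r) (k * q) s d hD hk
    (Nat.mul_pos hk0 hq0n) hsposn (Nat.mul_pos hk0 hr0n) η (Real.exp (-(η ^ 2 * r))) hη0.le hpnn hp4
    hN1 hN2 hN3 hN4
  refine ⟨col, ?_, hcol2⟩
  intro a b hab
  have h1 : (col s(a, b) : ℝ) < ((k * r * d : ℕ) : ℝ) := by exact_mod_cast hcol1 a b hab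
  refine lt_of_lt_of_le h1 ?_
  push_cast
  have hDsr : (1 + 2 * η) * D / s ≤ (1 + 2 * η) * D / ((1 - 4 * η) * r) := by
    apply div_le_div_of_nonneg_left (by positivity) _ hs2
    apply mul_pos _ hr0; linarith
  have h3 : (k:ℝ) * r * d ≤ k * r * ((1 + 2 * η) * D / ((1 - 4 * η) * r) + 1) := by
    apply mul_le_mul_of_nonneg_left _ (by positivity)
    linarith
  have h14 : (0:ℝ) < 1 - 4 * η := by linarith
  have h4 : (k:ℝ) * r * ((1 + 2 * η) * D / ((1 - 4 * η) * r) + 1)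
      = (k * D) * ((1 + 2 * η) / (1 - 4 * η)) + k * r := by
    field_simp
  have h5 : (1 + 2 * η) / (1 - 4 * η) ≤ 1 + 15 / 2 * η := by
    rw [div_le_iff₀ h14]
    have e0 : 0 ≤ η * (1 / 20 - η) := mul_nonneg hη0.le (by linarith)
    have e1 : (1 + 15 / 2 * η) * (1 - 4 * η) = 1 + 2 * η + 30 * (η * (1 / 20 - η)) := by ring
    linarith
  have h6 : (r:ℝ) ≤ η * D := by
    have e0 : (r:ℝ) * 1 ≤ r * (η * r) := mul_le_mul_of_nonneg_left hηr hr0.le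
    have e1 : η * ((r:ℝ) * r) ≤ η * D := mul_le_mul_of_nonneg_left hrDr hη0.le
    have e2 : (r:ℝ) * (η * r) = η * ((r:ℝ) * r) := by ring
    linarith
  have hkD0 : (0:ℝ) < k * D := by positivity
  calc (k:ℝ) * r * d ≤ (k * D) * ((1 + 2 * η) / (1 - 4 * η)) + k * r := by rw [← h4]; exact h3
    _ ≤ (k * D) * (1 + 15 / 2 * η) + k * (η * D) := by
        apply add_le_add
        · exact mul_le_mul_of_nonneg_left h5 hkD0.le
        · exact mul_le_mul_of_nonneg_left h6 hk0'.le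
    _ = (k * D) * (1 + 17 / 2 * η) := by ring
    _ ≤ (k * D) * (1 + ε) := by
        apply mul_le_mul_of_nonneg_left _ hkD0.le
        linarith
    _ = (1 + ε) * ((D:ℝ) * k) := by ring

end Pool.Agent.MP_61eeb2_co
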