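import Mathlib
import Pool.Agent.Lib.MP_61eeb2_co.Phase

/-!
Counting the permutations for which a given vertex comes first in a given set.
-/

set_option autoImplicit false

namespace Pool.Agent.MP_61eeb2_co

open Finset Classical

/-- `a` comes first in `N` for the order given by `π` -/
def FirstIn {V : Type*} (r : V → ℕ) (N : Finset V) (a : V) (π : Equiv.Perm V) : Prop :=
  ∀ x ∈ N, x ≠ a → r (π a) < r (π x)

theorem firstIn_swap {V : Type*} (r : V → ℕ) (N : Finset V) (a a' : V) (ha : a ∈ N) (ha' : a' ∈ N)
    (π : Equiv.Perm V) (h : FirstIn r N a' π) : FirstIn r N a (π * Equiv.swap a a') := by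
  intro x hx hxa
  rw [Equiv.Perm.mul_apply, Equiv.Perm.mul_apply, Equiv.swap_apply_left]
  by_cases hxa' : x = a'
  · subst hxa'
    rw [Equiv.swap_apply_right]
    exact h a ha (fun h => hxa h.symm)
  · rw [Equiv.swap_apply_of_ne_of_ne hxa hxa']
    exact h x hx hxa'

theorem card_firstIn_eq {V : Type*} [Fintype V] (r : V → ℕ) (N : Finset V) (a a' : V) (ha : a ∈ N)
    (ha' : a' ∈ N) :
    (univ.filter (fun π : Equiv.Perm V => FirstIn r N a' π)).card =
      (univ.filter (fun π : Equiv.Perm V => FirstIn r N a π)).card := by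
  apply Finset.card_nbij' (fun π => π * Equiv.swap a a') (fun π => π * Equiv.swap a a')
  · intro π hπ
    simp only [coe_filter, mem_univ, true_and, Set.mem_ofPred_eq] at hπ ⊢
    exact firstIn_swap r N a a' ha ha' π hπ
  · intro π hπ
    simp only [coe_filter, mem_univ, true_and, Set.mem_ofPred_eq] at hπ ⊢
    have := firstIn_swap r N a' a ha' ha π hπ
    rw [Equiv.swap_comm] at this
    exact this
  · intro π _
    simp [mul_assoc]
  · intro π _
    simp [mul_assoc]

theorem card_firstIn {V : Type*} [Fintype V] (r : V → ℕ) (hr : Function.Injective r)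
    (N : Finset V) (a : V) (ha : a ∈ N) :
    N.card * (univ.filter (fun π : Equiv.Perm V => FirstIn r N a π)).card =
      Fintype.card (Equiv.Perm V) := by
  have h1 : (univ : Finset (Equiv.Perm V)) =
      N.biUnion (fun a' => univ.filter (fun π : Equiv.Perm V => FirstIn r N a' π)) := by
    ext π
    simp only [mem_univ, mem_biUnion, mem_filter, true_and, true_iff]
    obtain ⟨a', ha', hmin⟩ := Finset.exists_min_image N (fun x => r (π x)) ⟨a, ha⟩
    refine ⟨a', ha', ?_⟩
    intro x hx hne
    refine lt_of_le_of_ne (hmin x hx) ?_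
    intro heq
    exact hne (π.injective (hr heq)).symm
  have h2 : (univ : Finset (Equiv.Perm V)).card =
      ∑ a' ∈ N, (univ.filter (fun π : Equiv.Perm V => FirstIn r N a' π)).card := by
    conv_lhs => rw [h1]
    apply Finset.card_biUnion
    intro x hx y hy hxy
    change Disjoint _ _
    rw [Finset.disjoint_left]
    intro π h3 h4
    rw [mem_filter] at h3 h4
    have := h3.2 y hy (fun h => hxy h.symm)
    have := h4.2 x hx hxy
    omega
  rw [← Finset.card_univ, h2, Finset.sum_congr rfl (fun a' ha' => card_firstIn_eq r N a a' ha ha')]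
  simp

end Pool.Agent.MP_61eeb2_co
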